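import Pool.Agent.H474R2.PG.Main

set_option autoImplicit false

/-! # Long strings of consecutive composite values of an irreducible polynomial

For every irreducible polynomial `f` with integer coefficients and positive degree there is
`c > 0` such that for all large `Y` every interval `(M, M + Y]` with `M ≥ Y` contains a string of
more than `c (log Y) (log log Y)` consecutive integers `n` at which `|f(n)|` is composite;
moreover every `f(n)` in the string has a proper prime factor `p ≤ Y^(1/10)`. -/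

namespace Pool.Agent.Results.MP_51e72e_nt.LongCompositeStrings

theorem result (f : Polynomial ℤ) (hf : Irreducible f) (hd : 0 < f.natDegree) :
    ∃ c : ℝ, 0 < c ∧ ∃ Y₀ : ℝ, ∀ Y : ℝ, Y₀ ≤ Y → ∀ M : ℤ, Y ≤ M →
      ∃ x : ℤ, M < x ∧ (x : ℝ) + c * Real.log Y * Real.log (Real.log Y) ≤ M + Y ∧
        ∀ n : ℤ, x ≤ n → (n : ℝ) ≤ x + c * Real.log Y * Real.log (Real.log Y) →
          ¬ (f.eval n).natAbs.Prime ∧
          ∃ p : ℕ, p.Prime ∧ (p : ℝ) ≤ Y ^ (1 / 10 : ℝ) ∧ (p : ℤ) ∣ f.eval n ∧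
            p < (f.eval n).natAbs := by
  obtain ⟨c, hc, Y₀, h⟩ := Pool.Agent.H474R2.PG.strings_abs f hf hd
  refine ⟨c, hc, Y₀, fun Y hY M hM => ?_⟩
  obtain ⟨x, h1, h2, h3⟩ := h Y hY M hM
  refine ⟨x, h1, h2, fun n hn1 hn2 => ?_⟩
  obtain ⟨k, hk⟩ := Int.eq_ofNat_of_zero_le (sub_nonneg.mpr hn1)
  have hn : n = x + (k : ℤ) := by linarith
  subst hn
  push_cast at hn2
  obtain ⟨p, hp, hpY, hpd, hpl⟩ := h3 k (by linarith)
  refine ⟨fun hpr => ?_, p, hp, hpY, hpd, hpl⟩
  have h4 : p ∣ (f.eval (x + (k : ℤ))).natAbs := Int.natCast_dvd.mp hpd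
  have h5 := (Nat.prime_dvd_prime_iff_eq hp hpr).mp h4
  omega

end Pool.Agent.Results.MP_51e72e_nt.LongCompositeStrings
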