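import Mathlib
import Pool.Agent.H362R2.R1.Poly

/-!
Quantitative Hypothesis H for families of linear polynomials: in every finite set of at least
`C (1 + log log H)` linear polynomials of height at most `H`, the families of `k + 1` members which
are simultaneously prime infinitely often carry at least the proportion `4 ^ (-k) - ε` of the total
mass of the constants `C_F`.
-/

namespace Pool.Agent.Results.MP_51e72e_nt.QuarterOfLinearFamilies

open Finset Polynomial Pool.Agent.H362R2.R1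

open Classical in
theorem result :
    (∀ F : Finset ℤ[X], (∀ f ∈ F, f.natDegree = 1 ∧ 0 < f.leadingCoeff ∧ Irreducible f) →
      HasProd (fun p : Nat.Primes => (1 - (omega F p : ℝ) / (p : ℕ)) / (1 - 1 / ((p : ℕ) : ℝ)) ^ F.card) (CF F) ∧
      ((∀ p : ℕ, p.Prime → omega F p < p) → 0 < CF F)) ∧
    ∀ k : ℕ, 1 ≤ k → ∀ ε : ℝ, 0 < ε → ∃ C : ℝ, 0 < C ∧ ∀ (H : ℝ) (𝓕 : Finset ℤ[X]), 3 ≤ H →
      (∀ f ∈ 𝓕, (f.natDegree = 1 ∧ 0 < f.leadingCoeff ∧ Irreducible f) ∧ ∀ i, |((f.coeff i : ℤ) : ℝ)| ≤ H) →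
      C * (1 + Real.log (Real.log H)) ≤ 𝓕.card →
      (1 - ε) * (𝓕.card.choose (k + 1)) ≤ ∑ F ∈ 𝓕.powersetCard (k + 1), CF F ∧
      ((1 / 4 : ℝ) ^ k - ε) * ∑ F ∈ 𝓕.powersetCard (k + 1), CF F ≤
        ∑ F ∈ (𝓕.powersetCard (k + 1)).filter
          (fun F => {n : ℕ | ∀ f ∈ F, 0 < f.eval (n : ℤ) ∧ Prime (f.eval (n : ℤ))}.Infinite), CF F :=
  ⟨fun F hF => ⟨CF_hasProd F hF, fun h => CF_pos F hF h⟩,
    fun k hk ε hε => main_poly k hk ε hε⟩

end Pool.Agent.Results.MP_51e72e_nt.QuarterOfLinearFamilies
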