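import Mathlib
import Pool.Agent.H373R2.T4.NearMainG

/-!
Quantitative Hypothesis H for the constant term shifts of one fixed polynomial of any degree `d ≥ 2`: for every number
`k` of polynomials and `θ < 1`, in the whole range `x^(e+δ) ≤ H ≤ (x/2)^d`, where `e` is the maximum of `3d/4 - 1` and
`d - 2`, a positive proportion of all k-tuples `(f + h_1, ..., f + h_k)`, `1 ≤ h_i ≤ H`, satisfies the hypotheses of
Schinzel's Hypothesis H and has at least `θ` times the predicted number of simultaneous prime values up to `x`.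
-/

namespace Pool.Agent.Results.MP_51e72e_nt.ShiftProportion
open Finset Polynomial Pool.Agent.H373R2.BH

open Classical in
theorem result (k : ℕ) (hk : 1 ≤ k) (f : ℤ[X]) (hf : 2 ≤ f.natDegree) (hl : 0 < f.leadingCoeff)
    (δ : ℝ) (hδ : 0 < δ) (θ : ℝ) (hθ0 : 0 < θ) (hθ1 : θ < 1) :
    ∃ c : ℝ, 0 < c ∧ ∃ y₀ x₀ : ℕ, ∀ x : ℕ, x₀ ≤ x → ∀ H : ℕ,
      (x : ℝ) ^ (max (3 / 4 * (f.natDegree : ℝ) - 1) ((f.natDegree : ℝ) - 2) + δ) ≤ H →
      2 ^ f.natDegree * H ≤ x ^ f.natDegree → ∀ z : ℕ, y₀ ≤ z → z ^ 6 ≤ H →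
      c * (H : ℝ) ^ k ≤ #((Fintype.piFinset fun _ : Fin k => Icc 1 H).filter (fun h =>
        BHFamily (fun i => f + C (h i : ℤ)) ∧
        θ * eulerProduct (fun i => f + C (h i : ℤ)) z * (x / (f.natDegree * Real.log x) ^ k) ≤
          primeCount (fun i => f + C (h i : ℤ)) x ∧
        c * (x / (Real.log x) ^ k) ≤ primeCount (fun i => f + C (h i : ℤ)) x)) := by
  set d : ℝ := (f.natDegree : ℝ) with hd
  have hd2 : 2 ≤ d := by rw [hd]; exact_mod_cast hf
  have hd0 : 0 < d := by linarith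
  set ν₀ : ℝ := min (1 / 4) (1 / d) with hν₀
  have hν₀0 : 0 < ν₀ := by positivity
  set ν : ℝ := ν₀ - min (ν₀ / 2) (δ / d) with hν
  have h1 : 0 < min (ν₀ / 2) (δ / d) := by positivity
  have h2 : min (ν₀ / 2) (δ / d) ≤ ν₀ / 2 := min_le_left _ _
  have h3 : min (ν₀ / 2) (δ / d) ≤ δ / d := min_le_right _ _
  have h4 : ν₀ ≤ 1 / 4 := min_le_left _ _
  have h5 : ν₀ ≤ 1 / d := min_le_right _ _
  have hν0 : 0 < ν := by linarith
  have hν1 : 4 * ν < 1 := by linarith
  have h6 : 1 / d ≤ 1 / 2 := by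
    apply one_div_le_one_div_of_le (by norm_num) hd2
  have hν2 : 2 * ν < 1 - 1 / d := by linarith
  have hν3 : ν < 1 / d := by linarith
  obtain ⟨c, hc, y₀, x₀, hmain⟩ := Pool.Agent.H373R2.T4.shift_near k hk f hf hl ν hν0 hν1 hν2 hν3 θ hθ0 hθ1
  refine ⟨c, hc, y₀, x₀ + 1, fun x hx H hH1 hH2 z hz hz6 => hmain x (by omega) H ?_ hH2 z hz hz6⟩
  refine le_trans ?_ hH1
  apply Real.rpow_le_rpow_of_exponent_le (by exact_mod_cast (by omega : 1 ≤ x))
  have h7 : d * ν₀ = min (1 / 4 * d) 1 := by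
    rw [hν₀, mul_min_of_nonneg _ _ hd0.le]
    congr 1
    · ring
    · field_simp
  have h8 : d * min (ν₀ / 2) (δ / d) ≤ δ := by
    calc d * min (ν₀ / 2) (δ / d) ≤ d * (δ / d) := mul_le_mul_of_nonneg_left h3 hd0.le
      _ = δ := by field_simp
  have h9 : d - 1 - d * ν₀ ≤ max (3 / 4 * d - 1) (d - 2) := by
    rw [h7]
    rcases le_total (1 / 4 * d) 1 with h | h
    · rw [min_eq_left h]
      refine le_trans ?_ (le_max_left _ _)
      linarith
    · rw [min_eq_right h]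
      refine le_trans ?_ (le_max_right _ _)
      linarith
  show d - 1 - d * ν ≤ max (3 / 4 * d - 1) (d - 2) + δ
  have h10 : d - 1 - d * ν = (d - 1 - d * ν₀) + d * min (ν₀ / 2) (δ / d) := by rw [hν]; ring
  rw [h10]
  linarith

end Pool.Agent.Results.MP_51e72e_nt.ShiftProportion
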