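import Pool.Agent.H300R2.FB.ThinAbs

/-!
Schinzel's asymptotic formula for almost all polynomials `f = a + R(X) + σ d X^j`, `σ = 1` or
`σ = -1`, `a₀ < a ≤ a₀ + A`, `D < d ≤ 2D`, in every box with `A D ≥ x (log x)^B`, where `x` bounds
the values of the polynomials.
-/

set_option autoImplicit false

namespace Pool.Agent.Results.MP_51e72e_nt.ThinBoxesSigned

open Finset Polynomial Filter

/-- `ω_f(p)`: the number of residue classes modulo `p` in which `f` vanishes modulo `p` -/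
noncomputable def omega (f : ℤ[X]) (p : ℕ) : ℕ :=
  ((range p).filter (fun k : ℕ => (p : ℤ) ∣ f.eval (k : ℤ))).card

/-- the Euler product `∏_{p ≤ z} (1 - ω_f(p) / p) / (1 - 1 / p)` -/
noncomputable def eulerProd (z : ℕ) (f : ℤ[X]) : ℝ :=
  ∏ p ∈ (Icc 1 z).filter Nat.Prime, (1 - (omega f p : ℝ) / p) / (1 - 1 / (p : ℝ))

/-- the number of `n ≤ K`, `n ≥ 1`, with `|f(n)|` prime -/
noncomputable def absPrimeCount (f : ℤ[X]) (K : ℕ) : ℝ :=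
  (((Icc 1 K).filter (fun n : ℕ => (f.eval (n : ℤ)).natAbs.Prime)).card : ℝ)

/-- `∑ 1 / log |f(n)|` over `1 ≤ n ≤ K` with `|f(n)| ≥ 2` -/
noncomputable def absLogSum (f : ℤ[X]) (K : ℕ) : ℝ :=
  ∑ n ∈ (Icc 1 K).filter (fun n : ℕ => 2 ≤ |f.eval (n : ℤ)|),
    1 / Real.log |((f.eval (n : ℤ) : ℤ) : ℝ)|

/-- the polynomial `a + R + σ d X^j` -/
noncomputable def pol (R : ℤ[X]) (j : ℕ) (σ : ℤ) (a d : ℕ) : ℤ[X] :=
  C (a : ℤ) + R + C (σ * (d : ℤ)) * X ^ j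

open Classical in
/-- **Schinzel's asymptotic formula for almost all polynomials in thin boxes.** Let `j ≥ 1`,
`ε > 0`, `C`, `U` be given, let `E` be large in terms of these, and let `B` and `x` be large in
terms of these and `E`. Put `z = ⌊(log x)^E⌋`. Let `K ≥ x^ε`, let `R` be an integer polynomial of
degree less than `j` with `|R(n)| ≤ K^j / (log x)^B` for `1 ≤ n ≤ K`, and let
`A D ≥ x (log x)^B`, `x ≤ C D K^j`. Let either `σ = 1` and `a₀ + A + 2 D K^j + K^j ≤ x`, or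
`σ = -1`, `4 D K^j ≤ a₀` and `a₀ + A + K^j ≤ x`. Then over the `A D` polynomials
`f = a + R + σ d X^j`, `a₀ < a ≤ a₀ + A`, `D < d ≤ 2D`,
(1) the mean of `|#{n ≤ K : |f(n)| prime} - eulerProd z f * ∑ 1 / log |f(n)||` is at most
`K / (log x)^U`, and
(2) all `f` without fixed prime divisor `p ≤ z`, with at most `A D / (log x)^U` exceptions, satisfy
the asymptotic formula
`#{n ≤ K : |f(n)| prime} = (1 + θ (log x)^(-U)) eulerProd z f ∑ 1 / log |f(n)|`, `|θ| ≤ 1`. -/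
theorem result (j : ℕ) (hj : 1 ≤ j) (ε : ℝ) (hε : 0 < ε) (C : ℝ) (U : ℕ) : ∃ E' : ℕ,
    ∀ E : ℕ, E' ≤ E → ∃ B x0 : ℕ, ∀ x : ℕ, x0 ≤ x → ∀ (K D A a0 : ℕ) (R : ℤ[X]) (σ : ℤ),
    R.natDegree < j →
    ((σ = 1 ∧ a0 + A + 2 * D * K ^ j + K ^ j ≤ x) ∨
      (σ = -1 ∧ 4 * D * K ^ j ≤ a0 ∧ a0 + A + K ^ j ≤ x)) →
    (x : ℝ) ≤ C * D * (K : ℝ) ^ j → (x : ℝ) ^ ε ≤ K → x * Real.log x ^ B ≤ (A : ℝ) * D →
    (∀ n ∈ Icc 1 K, |((R.eval (n : ℤ) : ℤ) : ℝ)| ≤ (K : ℝ) ^ j / Real.log x ^ B) →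
    (∑ a ∈ Ioc a0 (a0 + A), ∑ d ∈ Ioc D (2 * D),
      |absPrimeCount (pol R j σ a d) K -
        eulerProd ⌊Real.log x ^ E⌋₊ (pol R j σ a d) * absLogSum (pol R j σ a d) K| ≤
      A * D * K / Real.log x ^ U) ∧
    ((((Ioc a0 (a0 + A)) ×ˢ (Ioc D (2 * D))).filter (fun ad : ℕ × ℕ =>
      (∀ p : ℕ, p.Prime → p ≤ ⌊Real.log x ^ E⌋₊ → ∃ n : ℤ, ¬ (p : ℤ) ∣
        (pol R j σ ad.1 ad.2).eval n) ∧
      eulerProd ⌊Real.log x ^ E⌋₊ (pol R j σ ad.1 ad.2) * absLogSum (pol R j σ ad.1 ad.2) K /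
          Real.log x ^ U <
        |absPrimeCount (pol R j σ ad.1 ad.2) K -
          eulerProd ⌊Real.log x ^ E⌋₊ (pol R j σ ad.1 ad.2) *
            absLogSum (pol R j σ ad.1 ad.2) K|)).card : ℝ) ≤
      A * D / Real.log x ^ U := by
  obtain ⟨E', h⟩ := Pool.Agent.H300R2.FB.bh_abs j hj ε hε 1 U
  refine ⟨E', fun E hE => ?_⟩
  obtain ⟨B, x1, hb⟩ := h E hE
  obtain ⟨x0, hx0⟩ := eventually_atTop.mp (Pool.Agent.H442R2.EHI.evt_log_ge C)
  refine ⟨B, max x0 x1, fun x hx K D A a0 R σ hRj hbox hC hK hAD hR => ?_⟩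
  have h1 := hb x ((le_max_right _ _).trans hx) K D A a0 R σ hRj hbox (by
    have h2 := hx0 x ((le_max_left _ _).trans hx)
    calc (x:ℝ) ≤ C * D * (K : ℝ) ^ j := hC
      _ = D * (K:ℝ) ^ j * C := by ring
      _ ≤ D * (K:ℝ) ^ j * Real.log x ^ 1 := by
        rw [pow_one]
        apply mul_le_mul_of_nonneg_left h2 (by positivity)) hK hAD hR
  refine ⟨h1.1, le_trans (le_of_eq ?_) h1.2⟩
  congr 2
  apply filter_congr
  intro ad _
  apply and_congr _ Iff.rfl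
  constructor
  · intro h p hp hpz
    exact (Pool.Agent.H300R2.BH.rho_ne_iff _ p hp).mpr (h p hp hpz)
  · intro h p hp hpz
    exact (Pool.Agent.H300R2.BH.rho_ne_iff _ p hp).mp (h p hp hpz)

end Pool.Agent.Results.MP_51e72e_nt.ThinBoxesSigned
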